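import Pool.Agent.Work.MP_1e1ce6_co.Brown.Main

/-!
# MP_1e1ce6_co : the complete graph has the chromatic root of largest real part

Every root of the chromatic polynomial of a non-complete graph on `n` vertices has real part
less than `n - 1`.
-/

namespace Pool.Agent.Results.MP_1e1ce6_co.BrownConjecture

open Finset Polynomial
open Pool.Agent.Work.MP_1e1ce6_co.Brown

theorem cnt_univ (V : Type) [Fintype V] (G : SimpleGraph V) (α : Type) [Fintype α] :
    cnt G Finset.univ α = Nat.card (G.Coloring α) := by
  classical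
  have e : {f : ↥(Finset.univ : Finset V) → α // ok G Finset.univ f} ≃ G.Coloring α :=
    { toFun := fun f => SimpleGraph.Coloring.mk (fun v => f.1 ⟨v, Finset.mem_univ v⟩)
        (fun {v w} h => f.2 ⟨v, Finset.mem_univ v⟩ ⟨w, Finset.mem_univ w⟩ h)
      invFun := fun c => ⟨fun v => c v.1, fun a b h => c.valid h⟩
      left_inv := fun f => by ext v; rfl
      right_inv := fun c => by ext v; rfl }
  rw [← Nat.card_congr e, Nat.card_eq_fintype_card, Fintype.card_subtype]
  unfold cnt
  congr 1

theorem pv_conj (V : Type) (G : SimpleGraph V) (Q : Finset V) (z : ℂ) :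
    pv G Q ((starRingEnd ℂ) z) = (starRingEnd ℂ) (pv G Q z) := by
  unfold pv
  rw [Polynomial.aeval_eq_sum_range, Polynomial.aeval_eq_sum_range, map_sum]
  apply Finset.sum_congr rfl
  intro i _
  simp

/-- **Main result.**  Let `G` be a finite simple graph on `n` vertices which is not complete.
Then every complex root of the chromatic polynomial of `G` has real part less than `n - 1`. -/
theorem result : ∀ (V : Type) [Fintype V] (G : SimpleGraph V), G ≠ ⊤ →
    ∀ p : ℂ[X], (∀ q : ℕ, 0 < q → p.eval (q : ℂ) = Nat.card (G.Coloring (Fin q))) →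
      ∀ z : ℂ, p.eval z = 0 → z.re < Fintype.card V - 1 := by
  classical
  intro V _ G hG p hp z hz
  have hpP : p = (P G Finset.univ).map (Int.castRingHom ℂ) := by
    apply Polynomial.eq_of_infinite_eval_eq
    have h1 : Set.range (fun k : ℕ => ((k : ℂ) + 1)) ⊆
        {x | eval x p = eval x ((P G Finset.univ).map (Int.castRingHom ℂ))} := by
      rintro _ ⟨k, rfl⟩
      show eval ((k : ℂ) + 1) p = eval ((k : ℂ) + 1) _
      have h2 := hp (k + 1) (Nat.succ_pos k)
      push_cast at h2
      rw [h2, ← cnt_univ]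
      have h3 : ((k : ℂ) + 1) = (Int.castRingHom ℂ) ((k : ℤ) + 1) := by simp
      rw [h3, Polynomial.eval_map_apply, P_eval']
      simp
    refine Set.Infinite.mono h1 (Set.infinite_range_of_injective ?_)
    intro a b hab
    have h4 : (a : ℂ) + 1 = (b : ℂ) + 1 := hab
    exact_mod_cast add_right_cancel h4
  have hpv : ∀ w : ℂ, p.eval w = pv G Finset.univ w := by
    intro w
    rw [hpP, Polynomial.eval_map]
    rfl
  obtain ⟨x, y, hxy, hadj⟩ : ∃ x y : V, x ≠ y ∧ ¬ G.Adj x y := by
    by_contra hcon
    apply hG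
    ext a b
    rw [SimpleGraph.top_adj]
    refine ⟨fun h => h.ne, fun h => ?_⟩
    by_contra hab
    exact hcon ⟨a, b, h, hab⟩
  by_contra hre
  rw [not_lt] at hre
  rcases le_total 0 z.im with hi | hi
  · refine pv_ne_zero G (Finset.mem_univ x) (Finset.mem_univ y) hxy hadj (Z := z) ?_ hi ?_
    · rw [Finset.card_univ]; exact hre
    · rw [← hpv]; exact hz
  · refine pv_ne_zero G (Finset.mem_univ x) (Finset.mem_univ y) hxy hadj
      (Z := (starRingEnd ℂ) z) ?_ ?_ ?_
    · rw [Finset.card_univ, Complex.conj_re]; exact hre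
    · rw [Complex.conj_im]; linarith
    · rw [pv_conj, ← hpv, hz, map_zero]

end Pool.Agent.Results.MP_1e1ce6_co.BrownConjecture
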